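import Mathlib

set_option autoImplicit false

namespace Pool.Agent.Suff

open Filter Topology

/-- circles of radius `2 ^ (8 ^ j)` -/
def S : Set ℂ := {z | ∃ j : ℕ, ‖z‖ = 2 ^ (8 ^ j)}

lemma le_R (x : ℝ) : ∃ j : ℕ, x < 2 ^ (8 ^ j) := by
  obtain ⟨n, hn⟩ := exists_nat_gt x
  refine ⟨n, hn.trans ?_⟩
  have h1 : n < 2 ^ (8 ^ n) := by
    have h2 : n < 8 ^ n := Nat.lt_pow_self (by norm_num)
    exact h2.trans (Nat.lt_pow_self (by norm_num))
  exact_mod_cast h1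

lemma bounded_iff (f : ℂ → ℂ) (hf : Differentiable ℂ f) :
    Bornology.IsBounded (f '' S) ↔ Bornology.IsBounded (Set.range f) := by
  constructor
  · intro h
    obtain ⟨M, hM⟩ := isBounded_iff_forall_norm_le.mp h
    rw [isBounded_iff_forall_norm_le]
    refine ⟨M, ?_⟩
    rintro _ ⟨z, rfl⟩
    obtain ⟨j, hj⟩ := le_R ‖z‖
    have hR : (0:ℝ) < 2 ^ (8 ^ j) := by positivity
    refine Complex.norm_le_of_forall_mem_frontier_norm_le (U := Metric.ball (0:ℂ) (2 ^ (8 ^ j)))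
      Metric.isBounded_ball hf.diffContOnCl ?_ (subset_closure (by simpa using hj))
    intro w hw
    rw [frontier_ball _ hR.ne'] at hw
    apply hM
    exact ⟨w, ⟨j, by simpa using hw⟩, rfl⟩
  · intro h
    exact h.subset (Set.image_subset_range f S)

lemma two_pow_le_exp (x : ℕ) : (2:ℝ) ^ x ≤ Real.exp x := by
  have h1 : (2:ℝ) ≤ Real.exp 1 := by
    have := Real.add_one_le_exp (1:ℝ)
    linarith
  calc (2:ℝ) ^ x ≤ (Real.exp 1) ^ x := by gcongr
    _ = Real.exp x := by rw [← Real.exp_nat_mul, mul_one]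

lemma exp_le_four_pow (x : ℕ) : Real.exp x ≤ (4:ℝ) ^ x := by
  have h1 : Real.exp 1 ≤ 4 := by
    have := Real.exp_one_lt_d9
    linarith
  calc Real.exp x = (Real.exp 1) ^ x := by rw [← Real.exp_nat_mul, mul_one]
    _ ≤ (4:ℝ) ^ x := by gcongr

lemma exponents (n j : ℕ) (h : n ≤ j) : 8 ^ n - 3 * n + 3 * j ≤ 8 ^ j := by
  induction j, h using Nat.le_induction with
  | base =>
    have : 3 * n ≤ 8 ^ n := by
      induction n with
      | zero => simp
      | succ k ih =>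
        rw [pow_succ]
        have : 1 ≤ 8 ^ k := Nat.one_le_pow _ _ (by norm_num)
        omega
    omega
  | succ k hk ih =>
    rw [pow_succ]
    have : 1 ≤ 8 ^ k := Nat.one_le_pow _ _ (by norm_num)
    omega

/-- for large `n` -/
lemma three_le (n : ℕ) : 3 * n ≤ 8 ^ n := by
  induction n with
  | zero => simp
  | succ k ih =>
    rw [pow_succ]
    have : 1 ≤ 8 ^ k := Nat.one_le_pow _ _ (by norm_num)
    omega

theorem main :
    ¬ (∀ ρ : ℝ, 0 < ρ → ∀ S : Set ℂ,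
      (∀ f : ℂ → ℂ, Differentiable ℂ f →
        (∃ A B : ℝ, 0 < A ∧ 0 < B ∧ ∀ z : ℂ, ‖f z‖ ≤ B * Real.exp (A * ‖z‖ ^ ρ)) →
        (Bornology.IsBounded (f '' S) ↔ Bornology.IsBounded (Set.range f))) →
      ∀ k : ℂ → ℝ, Continuous k → (∀ z : ℂ, 0 < k z) →
        (∀ A : ℝ, 0 < A →
          Asymptotics.IsLittleO (Filter.cocompact ℂ) (fun z : ℂ => Real.exp (A * ‖z‖ ^ ρ)) k) →
        ∃ k' : ℂ → ℝ, Continuous k' ∧ (∀ z : ℂ, 0 < k' z) ∧
          (∀ A : ℝ, 0 < A →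
            Asymptotics.IsLittleO (Filter.cocompact ℂ) (fun z : ℂ => Real.exp (A * ‖z‖ ^ ρ)) k') ∧
          ∃ C : ℝ, 0 < C ∧
            ∀ f : ℂ → ℂ, Differentiable ℂ f →
              (∃ A B : ℝ, 0 < A ∧ 0 < B ∧ ∀ z : ℂ, ‖f z‖ ≤ B * Real.exp (A * ‖z‖ ^ ρ)) →
              (∀ z ∈ S, ‖f z‖ ≤ k' z) → ∀ z : ℂ, ‖f z‖ ≤ C * k z) := by
  intro H
  have H1 := H 1 one_pos S (fun f hf _ => bounded_iff f hf) (fun z => Real.exp (‖z‖ ^ 2))
    (by fun_prop) (fun z => Real.exp_pos _) (by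
      intro A hA
      simp only [Real.rpow_one]
      rw [Asymptotics.isLittleO_iff]
      intro c hc
      have h1 : Tendsto (fun z : ℂ => ‖z‖) (cocompact ℂ) atTop := tendsto_norm_cocompact_atTop
      have h2 : Tendsto (fun x : ℝ => x ^ 2 - A * x) atTop atTop := by
        have : (fun x : ℝ => x ^ 2 - A * x) = fun x => x * (x - A) := by funext x; ring
        rw [this]
        exact tendsto_id.atTop_mul_atTop₀ (tendsto_atTop_add_const_right _ _ tendsto_id)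
      have h3 := (h2.comp h1).eventually_ge_atTop (-Real.log c)
      filter_upwards [h3] with z hz
      simp only [Function.comp_apply] at hz
      rw [Real.norm_of_nonneg (Real.exp_pos _).le, Real.norm_of_nonneg (Real.exp_pos _).le]
      have h4 : c = Real.exp (Real.log c) := (Real.exp_log hc).symm
      rw [h4, ← Real.exp_add]
      apply Real.exp_le_exp.mpr
      linarith)
  obtain ⟨k', hk'c, hk'0, hk'A, C, hC, hmain⟩ := H1
  -- lower bounds for k'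
  have hlow := hk'A 1 one_pos
  simp only [Real.rpow_one, one_mul] at hlow
  rw [Asymptotics.isLittleO_iff] at hlow
  have hlow1 := hlow (c := 1) one_pos
  obtain ⟨K, hK, hKsub⟩ := mem_cocompact.mp hlow1
  have hout : ∀ z : ℂ, z ∉ K → Real.exp ‖z‖ ≤ k' z := by
    intro z hz
    have := hKsub hz
    simp only [Set.mem_setOf_eq, one_mul] at this
    rwa [Real.norm_of_nonneg (Real.exp_pos _).le, Real.norm_of_nonneg (hk'0 z).le] at this
  obtain ⟨κ, hκ0, hκ1, hκ⟩ : ∃ κ : ℝ, 0 < κ ∧ κ ≤ 1 ∧ ∀ z, κ ≤ k' z := by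
    rcases K.eq_empty_or_nonempty with rfl | hne
    · refine ⟨1, one_pos, le_rfl, fun z => (Real.one_le_exp (norm_nonneg z)).trans (hout z (by simp))⟩
    · obtain ⟨z0, hz0, hmin⟩ := hK.exists_isMinOn hne hk'c.continuousOn
      refine ⟨min 1 (k' z0), lt_min one_pos (hk'0 z0), min_le_left _ _, fun z => ?_⟩
      by_cases hz : z ∈ K
      · exact (min_le_right _ _).trans (hmin hz)
      · exact (min_le_left _ _).trans ((Real.one_le_exp (norm_nonneg z)).trans (hout z hz))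
  obtain ⟨r0, hr0⟩ := isBounded_iff_forall_norm_le.mp hK.isBounded
  obtain ⟨N1, hN1⟩ := exists_nat_gt r0
  obtain ⟨N2, hN2⟩ := exists_nat_gt (C / κ)
  obtain ⟨p, hp1, hpr, hpC⟩ : ∃ p : ℕ, 1 ≤ p ∧ r0 < 2 ^ (8 ^ (p + 1)) ∧ C / κ < 2 ^ (p + 1) := by
    refine ⟨N1 + N2 + 1, by omega, ?_, ?_⟩
    · refine hN1.trans ?_
      have h1 : N1 < 2 ^ (8 ^ (N1 + N2 + 1 + 1)) := by
        have h2 : N1 + N2 + 1 + 1 < 8 ^ (N1 + N2 + 1 + 1) := Nat.lt_pow_self (by norm_num)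
        have h3 : 8 ^ (N1 + N2 + 1 + 1) < 2 ^ (8 ^ (N1 + N2 + 1 + 1)) := Nat.lt_pow_self (by norm_num)
        omega
      exact_mod_cast h1
    · refine hN2.trans ?_
      have h1 : N1 + N2 + 1 + 1 < 2 ^ (N1 + N2 + 1 + 1) := Nat.lt_pow_self (by norm_num)
      have h2 : N2 < 2 ^ (N1 + N2 + 1 + 1) := by omega
      exact_mod_cast h2
  set m : ℕ := 2 ^ (8 ^ (p + 1) - 3 * (p + 1)) with hm
  set R : ℝ := 2 ^ (8 ^ p) with hR
  have hR0 : 0 < R := by positivity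
  have hR1 : 1 ≤ R := one_le_pow₀ (by norm_num)
  have h8 : ∀ j : ℕ, 8 ^ j = 2 ^ (3 * j) := by
    intro j; rw [pow_mul]; norm_num
  let f : ℂ → ℂ := fun z => (κ : ℂ) * (z / (R : ℂ)) ^ m
  have hnorm : ∀ z, ‖f z‖ = κ * (‖z‖ / R) ^ m := by
    intro z
    simp only [f]
    rw [norm_mul, norm_pow, norm_div, Complex.norm_real, Complex.norm_real,
      Real.norm_of_nonneg hκ0.le, Real.norm_of_nonneg hR0.le]
  have hfS : ∀ z ∈ S, ‖f z‖ ≤ k' z := by
    rintro z ⟨j, hj⟩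
    rw [hnorm]
    rcases Nat.lt_or_ge p j with hpj | hpj
    · have hzK : z ∉ K := by
        intro hz
        have h1 := hr0 z hz
        rw [hj] at h1
        have h2 : (2:ℝ) ^ (8 ^ (p + 1)) ≤ 2 ^ (8 ^ j) :=
          pow_le_pow_right₀ (by norm_num) (Nat.pow_le_pow_right (by norm_num) hpj)
        linarith
      refine le_trans ?_ (hout z hzK)
      have h1 : κ * (‖z‖ / R) ^ m ≤ 1 * ‖z‖ ^ m := by
        apply mul_le_mul hκ1 _ (by positivity) (by norm_num)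
        gcongr
        exact div_le_self (norm_nonneg _) hR1
      refine h1.trans ?_
      rw [one_mul, hj, ← pow_mul]
      have h2 : 8 ^ j * m ≤ 2 ^ (8 ^ j) := by
        rw [hm]
        nth_rewrite 1 [h8 j]
        rw [← pow_add]
        apply Nat.pow_le_pow_right (by norm_num)
        have := exponents (p + 1) j hpj
        omega
      calc (2:ℝ) ^ (8 ^ j * m) ≤ 2 ^ (2 ^ (8 ^ j)) := pow_le_pow_right₀ (by norm_num) h2
        _ ≤ Real.exp ((2 ^ (8 ^ j) : ℕ) : ℝ) := two_pow_le_exp _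
        _ = Real.exp (2 ^ (8 ^ j)) := by push_cast; rfl
    · refine le_trans ?_ (hκ z)
      have h1 : (‖z‖ / R) ^ m ≤ 1 := by
        apply pow_le_one₀ (by positivity)
        rw [div_le_one hR0, hj, hR]
        exact pow_le_pow_right₀ (by norm_num) (Nat.pow_le_pow_right (by norm_num) hpj)
      nlinarith
  have hfin := hmain f (by simp only [f]; fun_prop) ⟨1, (m.factorial : ℝ), one_pos, by positivity, by
    intro z
    rw [hnorm, Real.rpow_one, one_mul]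
    have h1 : κ * (‖z‖ / R) ^ m ≤ 1 * ‖z‖ ^ m := by
      apply mul_le_mul hκ1 _ (by positivity) (by norm_num)
      gcongr
      exact div_le_self (norm_nonneg _) hR1
    have h2 := Real.pow_div_factorial_le_exp ‖z‖ (norm_nonneg z) m
    rw [div_le_iff₀ (by positivity)] at h2
    linarith⟩ hfS (((2:ℝ) ^ (3 * 8 ^ p) : ℝ) : ℂ)
  rw [hnorm, Complex.norm_real, Real.norm_of_nonneg (by positivity)] at hfin
  have e1 : (2:ℝ) ^ (3 * 8 ^ p) / R = 2 ^ (2 * 8 ^ p) := by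
    rw [hR, div_eq_iff (by positivity), ← pow_add]
    congr 1
    ring
  have e2 : 2 * 8 ^ p * m = 2 ^ (8 ^ (p + 1) - 2) := by
    rw [hm, h8 p]
    have h3 := three_le (p + 1)
    have : 8 ^ (p + 1) - 2 = 1 + 3 * p + (8 ^ (p + 1) - 3 * (p + 1)) := by omega
    rw [this, pow_add 2 (1 + 3 * p), pow_add 2 1, pow_one]
  rw [e1, ← pow_mul, e2] at hfin
  set T : ℕ := 2 ^ (6 * 8 ^ p + 1) with hT
  have e3 : Real.exp (((2:ℝ) ^ (3 * 8 ^ p)) ^ 2) ≤ 2 ^ T := by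
    have h1 := exp_le_four_pow (2 ^ (6 * 8 ^ p))
    have h2 : (((2 ^ (6 * 8 ^ p) : ℕ)) : ℝ) = ((2:ℝ) ^ (3 * 8 ^ p)) ^ 2 := by
      push_cast
      rw [← pow_mul]
      congr 1; ring
    rw [h2] at h1
    refine h1.trans (le_of_eq ?_)
    rw [hT, pow_succ 2 (6 * 8 ^ p), mul_comm (2 ^ (6 * 8 ^ p)) 2, pow_mul 2 2]
    norm_num
  have e4 : 2 * T ≤ 2 ^ (8 ^ (p + 1) - 2) := by
    rw [hT, ← pow_succ']
    apply Nat.pow_le_pow_right (by norm_num)
    have h1 : 8 ≤ 8 ^ p := by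
      calc 8 = 8 ^ 1 := by norm_num
        _ ≤ 8 ^ p := Nat.pow_le_pow_right (by norm_num) hp1
    rw [pow_succ]
    omega
  have e5 : p + 1 ≤ T := by
    have h1 : p < 8 ^ p := Nat.lt_pow_self (by norm_num)
    have h2 : 6 * 8 ^ p + 1 < 2 ^ (6 * 8 ^ p + 1) := Nat.lt_pow_self (by norm_num)
    omega
  have e6 : (2:ℝ) ^ T * 2 ^ (p + 1) ≤ 2 ^ (2 ^ (8 ^ (p + 1) - 2)) := by
    rw [← pow_add]
    apply pow_le_pow_right₀ (by norm_num)
    omega
  have e7 : C < κ * 2 ^ (p + 1) := by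
    rw [div_lt_iff₀ hκ0] at hpC
    linarith
  have hTpos : (0:ℝ) < 2 ^ T := by positivity
  have e8 : κ * ((2:ℝ) ^ T * 2 ^ (p + 1)) ≤ C * 2 ^ T :=
    calc κ * ((2:ℝ) ^ T * 2 ^ (p + 1)) ≤ κ * 2 ^ (2 ^ (8 ^ (p + 1) - 2)) := by gcongr
      _ ≤ C * Real.exp (((2:ℝ) ^ (3 * 8 ^ p)) ^ 2) := hfin
      _ ≤ C * 2 ^ T := by gcongr
  have e9 : (κ * 2 ^ (p + 1)) * (2:ℝ) ^ T ≤ C * 2 ^ T := by linarith
  have := le_of_mul_le_mul_right e9 hTpos
  linarith

end Pool.Agent.Suff
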